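import Pool.Agent.MWGR.StmtsA

/-!
# Block MWGR, row BBL: two blocks with the same counts (bubble sort)
-/

set_option autoImplicit false

namespace Pool.Agent.MWGR.H81

open Pool.Agent.Helper14_MV Pool.Agent.Helper2_MV Pool.Agent.MVO Pool.Agent.MWL Pool.Agent.MWS
  Pool.Agent.MWH

theorem uniq_split {t : ℕ} : ∀ {A A' B B' : List ℕ}, t ∉ A → t ∉ A' →
    A ++ t :: B = A' ++ t :: B' → A = A' ∧ B = B'
  | [], [], B, B', _, _, h => by simpa using h
  | [], a :: A', B, B', _, h2, h => by
    simp only [List.nil_append, List.cons_append, List.cons.injEq] at h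
    exact absurd (by rw [h.1]; simp) h2
  | a :: A, [], B, B', h1, _, h => by
    simp only [List.nil_append, List.cons_append, List.cons.injEq] at h
    exact absurd (by rw [h.1]; simp) h1
  | a :: A, a' :: A', B, B', h1, h2, h => by
    simp only [List.cons_append, List.cons.injEq] at h
    obtain ⟨h3, h4⟩ := uniq_split (A := A) (A' := A') (fun h => h1 (List.mem_cons_of_mem _ h))
      (fun h => h2 (List.mem_cons_of_mem _ h)) h.2
    exact ⟨by rw [h.1, h3], h4⟩

theorem pre_iff {U : List ℕ} {s t : ℕ} : Pre U t s ↔ ¬ Bef U s t := by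
  constructor
  · rintro ⟨T1, T2, T3, h⟩ hB
    exact hB T1 (T2 ++ s :: T3) h (by simp)
  · intro h
    unfold Bef at h
    push Not at h
    obtain ⟨P, Q, h1, h2⟩ := h
    obtain ⟨Q1, Q2, h3⟩ := List.append_of_mem h2
    exact ⟨P, Q1, Q2, by rw [h1, h3]⟩

theorem bef_pre {U : List ℕ} {s t : ℕ} (hs : s ∈ U) (ht : t ∈ U) (hst : s ≠ t)
    (h : Bef U s t) : Pre U s t := by
  obtain ⟨P, Q, h1⟩ := List.append_of_mem ht
  have h2 := h P Q h1
  have h3 : s ∈ P := by
    rw [h1] at hs
    rcases List.mem_append.1 hs with h3 | h3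
    · exact h3
    · rcases List.mem_cons.1 h3 with h3 | h3
      · exact absurd h3 hst
      · exact absurd h3 h2
  obtain ⟨P1, P2, h4⟩ := List.append_of_mem h3
  exact ⟨P1, P2, Q, by rw [h1, h4]; simp⟩

theorem pre_bef {U : List ℕ} {s t : ℕ} (hU : U.Nodup) (h : Pre U s t) : Bef U s t := by
  obtain ⟨T1, T2, T3, h1⟩ := h
  intro P Q h2 h3
  have e : P ++ t :: Q = (T1 ++ s :: T2) ++ t :: T3 := by rw [← h2, h1]; simp
  have n1 : t ∉ P := by
    rw [h2] at hU
    intro h4
    exact (List.nodup_append.1 hU).2.2 t h4 t (by simp) rfl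
  have h1' : U = (T1 ++ s :: T2) ++ t :: T3 := by rw [h1]; simp
  have n2 : t ∉ T1 ++ s :: T2 := by
    rw [h1'] at hU
    intro h4
    exact (List.nodup_append.1 hU).2.2 t h4 t (by simp) rfl
  obtain ⟨-, h5⟩ := uniq_split n1 n2 e
  rw [h5] at h3
  rw [h1'] at hU
  exact (List.nodup_append.1 hU).2.2 s (by simp) s (by simp [h3]) rfl

theorem pre_asymm {U : List ℕ} {s t : ℕ} (hU : U.Nodup) (h : Pre U s t) : ¬ Pre U t s :=
  fun h' => (pre_iff.1 h') (pre_bef hU h)

theorem pre_mem {U : List ℕ} {s t : ℕ} (h : Pre U s t) : s ∈ U ∧ t ∈ U := by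
  obtain ⟨T1, T2, T3, h1⟩ := h
  rw [h1]
  simp

theorem cro_refl (n : ℕ) (η : FIC) (H pre suf : List ℕ) (x a s : ℕ) :
    CRo n η H pre suf x a s s := fun _ _ _ => RR.refl _

/-- the label of `(x, a)` is changed -/
def upL (Λ : ℕ → ℕ → ℕ) (x a v : ℕ) : ℕ → ℕ → ℕ := fun y b => if y = x ∧ b = a then v else Λ y b

theorem upL_self (Λ : ℕ → ℕ → ℕ) (x a v : ℕ) : upL Λ x a v x a = v := by simp [upL]

theorem cro_up {n : ℕ} {η : FIC} {H pre suf : List ℕ} {Λ : ℕ → ℕ → ℕ} {x a v : ℕ}
    (h : CRo n η H pre suf x a (Λ x a) v) (y b : ℕ) :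
    CRo n η H pre suf y b (Λ y b) (upL Λ x a v y b) := by
  unfold upL
  by_cases h1 : y = x ∧ b = a
  · rw [if_pos h1, h1.1, h1.2]
    exact h
  · rw [if_neg h1]
    exact cro_refl n η H pre suf y b _

theorem t1 {U U2 V F : Prop} (b : ¬ U2) (hn : ¬ (U2 ↔ V)) (s : U → ¬ V)
    (ib : ¬ (U ↔ V) → (F ↔ U)) : F ↔ U2 := by tauto

theorem t2 {U U2 V F : Prop} (b : ¬ U) (hn : ¬ (U2 ↔ V)) (s : U2 → V)
    (ib : ¬ (U ↔ V) → (F ↔ U)) : F ↔ U2 := by tauto

theorem t3 {U U2 V F : Prop} (e : U ↔ U2) (hn : ¬ (U2 ↔ V))
    (ib : ¬ (U ↔ V) → (F ↔ U)) : F ↔ U2 := by tauto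

theorem bbl (hLBB : MWS.LbbStmt) (hBFX : MWS.BfxStmt) (hRZE : RzeStmt) (hRT1 : Rt1Stmt)
    (hRT2 : Rt2Stmt) (hRT3 : Rt3Stmt) (hRT4 : Rt4Stmt) (hRT5 : Rt5Stmt) : BblStmt := by
  intro n β η hBG hle H pre suf l l' ok ok' hab hN hRE hLE hCR hSW
  obtain ⟨T, hT, hTl, hT1, hT2, hTR⟩ := hRZE n β hBG H pre suf l ok
  obtain ⟨T', hT', hTl', hT1', hT2', hTR'⟩ := hRZE n β hBG H pre suf l' ok'
  -- tokens
  have heavy : ∀ U, Tk H pre suf U → ∀ t ∈ U, t % 3 ≠ 0 → t / 3 ∈ H := by
    intro U hU t ht h0
    rcases hU.lt t ht with h1 | h1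
    · exact absurd h1.1 h0
    · exact h1.2
  have light : ∀ U, Tk H pre suf U → ∀ t ∈ U, t % 3 = 0 → t / 3 ∉ H := by
    intro U hU t ht h0
    rcases hU.lt t ht with h1 | h1
    · exact h1.2.1
    · exact absurd h0 h1.1
  have tok : ∀ t, t ∈ T ↔ t ∈ T' := by
    intro t
    have e3 : ∀ U U', Tk H pre suf U → Tk H pre suf U' →
        (∀ a, a ∉ H → (3 * a ∈ U → 3 * a ∈ U')) → t ∈ U → t ∈ U' := by
      intro U U' hU hU' hl ht
      by_cases h0 : t % 3 = 0
      · have h1 := light U hU t ht h0
        have h2 : 3 * (t / 3) = t := by omega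
        have h3 := hl (t / 3) h1
        rw [h2] at h3
        exact h3 ht
      · have h1 := heavy U hU t ht h0
        have h2 := pre_mem (hU'.hv (t / 3) h1)
        by_cases h4 : t % 3 = 1
        · have h5 : 3 * (t / 3) + 1 = t := by omega
          rw [h5] at h2
          exact h2.1
        · have h5 : 3 * (t / 3) + 2 = t := by omega
          rw [h5] at h2
          exact h2.2
    exact ⟨e3 T T' hT hT' (fun a ha h => (hTl' a ha).2 ((hab a ha).1 ((hTl a ha).1 h))),
      e3 T' T hT' hT (fun a ha h => (hTl a ha).2 ((hab a ha).2 ((hTl' a ha).1 h)))⟩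
  have hperm : T.Perm T' := (List.perm_ext_iff_of_nodup hT.nd hT'.nd).2 tok
  have key : ∀ U, Relation.ReflTransGen (MWS.Stq T') T U → U.Perm T ∧ Tk H pre suf U ∧
      (∀ c d, c ≠ d → ¬ (Bef U c d ↔ Bef T' c d) → (Bef T c d ↔ Bef U c d)) ∧
      RR η (Wd pre suf (real n H (cb l) (fun x => l.count x) O0 T))
        (Wd pre suf (real n H (cb l) (fun x => l.count x) O0 U)) := by
    intro U hU
    induction hU with
    | refl => exact ⟨List.Perm.refl _, hT, fun c d _ _ => Iff.rfl, RR.refl _⟩
    | tail hu1 hst ih =>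
      rename_i U U2
      obtain ⟨ia, ik, ib, ic⟩ := ih
      obtain ⟨A, D, s, t, hne, rfl, rfl, s1, s2⟩ := hst
      obtain ⟨b1, b2, b3, b4, b5⟩ := hBFX A D s t hne
      have hp2 : (A ++ t :: s :: D).Perm (A ++ s :: t :: D) :=
        List.Perm.append_left A (List.Perm.swap s t D)
      have hB1 : Bef (A ++ s :: t :: D) s t := by
        apply b1.2
        have h1 := ik.nd
        rw [List.nodup_append] at h1
        refine ⟨fun h2 => h1.2.2 t h2 t (by simp) rfl, fun h2 => ?_⟩
        have h3 := (List.nodup_cons.1 h1.2.1).1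
        exact h3 (List.mem_cons_of_mem _ h2)
      have hB2 : ¬ Bef T' s t := s1 hB1
      have hB3 : Bef T s t := (ib s t hne (fun h => hB2 (h.1 hB1))).2 hB1
      have hsT : s ∈ T := ia.mem_iff.1 (by simp)
      have htT : t ∈ T := ia.mem_iff.1 (by simp)
      have pT : Pre T s t := bef_pre hsT htT hne hB3
      have pT' : Pre T' t s := pre_iff.2 hB2
      have nT : ¬ Pre T t s := pre_asymm hT.nd pT
      have nT' : ¬ Pre T' s t := pre_asymm hT'.nd pT'
      have hk2 : Tk H pre suf (A ++ t :: s :: D) := by
        refine ⟨hp2.nodup_iff.2 ik.nd, ?_, fun u hu => ik.lt u (hp2.mem_iff.1 hu)⟩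
        intro x hx
        have h1 := ik.hv x hx
        obtain ⟨m1, m2⟩ := pre_mem h1
        have h2 := pre_bef ik.nd h1
        have h3 : 3 * x + 1 ≠ 3 * x + 2 := by omega
        refine bef_pre (hp2.mem_iff.2 m1) (hp2.mem_iff.2 m2) h3 ?_
        refine (b5 _ _ ?_ ?_).1 h2
        · rintro ⟨rfl, rfl⟩
          exact nT' (hT'.hv x hx)
        · rintro ⟨rfl, rfl⟩
          exact b3 h2
      refine ⟨hp2.trans ia, hk2, ?_, ?_⟩
      · intro c d hcd hn
        by_cases h1 : c = s ∧ d = t
        · obtain ⟨rfl, rfl⟩ := h1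
          exact t1 b2 hn s1 (ib c d hcd)
        · by_cases h2 : c = t ∧ d = s
          · obtain ⟨rfl, rfl⟩ := h2
            exact t2 b3 hn s2 (ib c d hcd)
          · exact t3 (b5 c d h1 h2) hn (ib c d hcd)
      · refine η.trans ic ?_
        change RR η _ _
        have hsU : s ∈ A ++ s :: t :: D := by simp
        have htU : t ∈ A ++ s :: t :: D := by simp
        -- change of one label
        have lab : ∀ V, Tk H pre suf V → ∀ x a, x ∈ H → a ∈ l → a ∉ H →
            RR η (Wd pre suf (real n H (cb l) (fun x => l.count x) O0 V))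
              (Wd pre suf (real n H (upL (cb l) x a (cb l' x a)) (fun x => l.count x) O0 V)) := by
          intro V hV x a hx ha haH
          refine hRT5 n β η hBG hle H pre suf V (cb l) (upL (cb l) x a (cb l' x a))
            (fun x => l.count x) (fun x => l.count x) ok.nd hV (fun _ _ => rfl) ?_
          intro y _ b _
          exact cro_up (hCR x hx a ha haH) y b
        by_cases hs0 : s % 3 = 0
        · obtain ⟨a, rfl⟩ : ∃ a, s = 3 * a := ⟨s / 3, by omega⟩
          have haH : a ∉ H := by
            have := light T hT _ hsT hs0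
            rwa [Nat.mul_div_cancel_left a (by omega)] at this
          have hal : a ∈ l := (hTl a haH).1 hsT
          have hal' : a ∈ l' := (hab a haH).1 hal
          by_cases ht0 : t % 3 = 0
          · -- two light letters
            obtain ⟨b, rfl⟩ : ∃ b, t = 3 * b := ⟨t / 3, by omega⟩
            have hbH : b ∉ H := by
              have := light T hT _ htT ht0
              rwa [Nat.mul_div_cancel_left b (by omega)] at this
            have hbl : b ∈ l := (hTl b hbH).1 htT
            have hbl' : b ∈ l' := (hab b hbH).1 hbl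
            have hne' : a ≠ b := fun h => hne (by rw [h])
            have h1 : cb l a b = 1 := (hT2 a hal b hbl haH hbH hne').1 pT
            have h2 : ¬ cb l' a b = 1 := fun h => nT' ((hT2' a hal' b hbl' haH hbH hne').2 h)
            have h3 : cb l' a b ≤ l'.count a :=
              (List.takeWhile_sublist _).count_le a
            have h4 := (ok'.lt a hal' haH).1
            exact hRT4 n β η hBG hle H pre suf A D a b (cb l) (fun x => l.count x) ok.nd ik hk2
              (hSW a hal b hbl haH hbH hne' h1 (by omega))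
          · have htH := heavy T hT _ htT ht0
            by_cases ht1 : t % 3 = 1
            · -- `a`, open `x`
              obtain ⟨x, rfl⟩ : ∃ x, t = 3 * x + 1 := ⟨t / 3, by omega⟩
              have hx : x ∈ H := by
                have e : (3 * x + 1) / 3 = x := by omega
                rwa [e] at htH
              have h1 : cb l x a = 0 := (hT1 x hx a hal haH).1.1 pT
              have h2 : ¬ cb l' x a = 0 := fun h => nT' ((hT1' x hx a hal' haH).1.2 h)
              refine hRT3 n β η hBG hle H pre suf A D x a (cb l) (fun x => l.count x) ok.nd ik hk2 ?_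
                (hLE x hx a hal haH (fun h => h2 (h.1 h1)))
              rw [h1]
            · -- `a`, close `x`
              obtain ⟨x, rfl⟩ : ∃ x, t = 3 * x + 2 := ⟨t / 3, by omega⟩
              have hx : x ∈ H := by
                have e : (3 * x + 2) / 3 = x := by omega
                rwa [e] at htH
              have h1 : ¬ cb l x a = l.count x := fun h => nT ((hT1 x hx a hal haH).2.2 h)
              have h2 : cb l' x a = l'.count x := (hT1' x hx a hal' haH).2.1 pT'
              refine η.trans (lab _ ik x a hx hal haH) (η.trans (RR.symm ?_)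
                (lab _ hk2 x a hx hal haH).symm)
              refine hRT2 n β η hBG hle H pre suf A D x a (upL (cb l) x a (cb l' x a))
                (fun x => l.count x) ok.nd hk2 ik ?_ ?_
                (hRE x hx a hal haH (fun h => h1 (h.2 h2)))
              · have := ok.hv x hx
                omega
              · rw [upL_self, h2]
                exact (hN x hx).symm
        · have hsH := heavy T hT _ hsT hs0
          by_cases ht0 : t % 3 = 0
          · obtain ⟨a, rfl⟩ : ∃ a, t = 3 * a := ⟨t / 3, by omega⟩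
            have haH : a ∉ H := by
              have := light T hT _ htT ht0
              rwa [Nat.mul_div_cancel_left a (by omega)] at this
            have hal : a ∈ l := (hTl a haH).1 htT
            have hal' : a ∈ l' := (hab a haH).1 hal
            by_cases hs1 : s % 3 = 1
            · -- open `x`, `a`
              obtain ⟨x, rfl⟩ : ∃ x, s = 3 * x + 1 := ⟨s / 3, by omega⟩
              have hx : x ∈ H := by
                have e : (3 * x + 1) / 3 = x := by omega
                rwa [e] at hsH
              have h1 : ¬ cb l x a = 0 := fun h => nT ((hT1 x hx a hal haH).1.2 h)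
              have h2 : cb l' x a = 0 := (hT1' x hx a hal' haH).1.1 pT'
              refine η.trans (lab _ ik x a hx hal haH) (η.trans (RR.symm ?_)
                (lab _ hk2 x a hx hal haH).symm)
              refine hRT3 n β η hBG hle H pre suf A D x a (upL (cb l) x a (cb l' x a))
                (fun x => l.count x) ok.nd hk2 ik ?_
                (hLE x hx a hal haH (fun h => h1 (h.2 h2)))
              rw [upL_self, h2]
            · -- close `x`, `a`
              obtain ⟨x, rfl⟩ : ∃ x, s = 3 * x + 2 := ⟨s / 3, by omega⟩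
              have hx : x ∈ H := by
                have e : (3 * x + 2) / 3 = x := by omega
                rwa [e] at hsH
              have h1 : cb l x a = l.count x := (hT1 x hx a hal haH).2.1 pT
              have h2 : ¬ cb l' x a = l'.count x := fun h => nT' ((hT1' x hx a hal' haH).2.2 h)
              refine hRT2 n β η hBG hle H pre suf A D x a (cb l) (fun x => l.count x) ok.nd ik hk2 ?_ ?_
                (hRE x hx a hal haH (fun h => h2 (h.1 h1)))
              · have := ok.hv x hx
                omega
              · rw [h1]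
          · -- two heavy tokens
            have hdiv : s / 3 ≠ t / 3 := by
              intro h
              have hpT := hT.hv _ hsH
              have hpT' := hT'.hv _ hsH
              by_cases hs1 : s % 3 = 1
              · have e1 : 3 * (s / 3) + 1 = s := by omega
                have e2 : 3 * (s / 3) + 2 = t := by omega
                rw [e1, e2] at hpT'
                exact nT' hpT'
              · have e1 : 3 * (s / 3) + 2 = s := by omega
                have e2 : 3 * (s / 3) + 1 = t := by omega
                rw [e1, e2] at hpT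
                exact nT hpT
            exact hle _ _ (hRT1 n β hBG H pre suf A D s t (cb l) (fun x => l.count x) ok.nd ik hk2
              hs0 ht0 hdiv)
  obtain ⟨-, -, -, hc⟩ := key T' (hLBB T T' (fun c => hperm.count_eq c))
  have h5 : RR η (Wd pre suf (real n H (cb l) (fun x => l.count x) O0 T'))
      (Wd pre suf (real n H (cb l') (fun x => l'.count x) O0 T')) := by
    refine hRT5 n β η hBG hle H pre suf T' (cb l) (cb l') (fun x => l.count x)
      (fun x => l'.count x) ok.nd hT' hN ?_
    intro x hx a ha
    have haH : a ∉ H := by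
      have := light T' hT' _ ha (by omega)
      rwa [Nat.mul_div_cancel_left a (by omega)] at this
    exact hCR x hx a ((hab a haH).2 ((hTl' a haH).1 ha)) haH
  exact η.trans (hle _ _ hTR) (η.trans hc (η.trans h5 (hle _ _ hTR'.symm)))

end Pool.Agent.MWGR.H81
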