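import Pool.Agent.MWGR.StmtsE

/-!
# Block MWGR, row GCM: a greatest common divisor as a sum of multiples mod `n`
-/

set_option autoImplicit false

namespace Pool.Agent.MWGR.H81G

open Pool.Agent.Helper14_MV Pool.Agent.Helper2_MV Pool.Agent.MVO Pool.Agent.MWL Pool.Agent.MWS
  Pool.Agent.MWH

theorem bez (n : ℕ) (hn : 1 ≤ n) (a b : ℕ) : ∃ s t : ℕ, s * a + t * b ≡ Nat.gcd a b [MOD n] := by
  have hn' : (n : ℤ) ≠ 0 := by omega
  refine ⟨(Nat.gcdA a b % n).toNat, (Nat.gcdB a b % n).toNat, ?_⟩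
  rw [← Int.natCast_modEq_iff]
  push_cast
  rw [Int.toNat_of_nonneg (Int.emod_nonneg _ hn'), Int.toNat_of_nonneg (Int.emod_nonneg _ hn'),
    Nat.gcd_eq_gcd_ab a b]
  have h1 : Nat.gcdA a b % n * a + Nat.gcdB a b % n * b ≡
      Nat.gcdA a b * a + Nat.gcdB a b * b [ZMOD n] :=
    ((Int.mod_modEq _ _).mul_right _).add ((Int.mod_modEq _ _).mul_right _)
  have h2 : (a : ℤ) * Nat.gcdA a b + b * Nat.gcdB a b =
      Nat.gcdA a b * a + Nat.gcdB a b * b := by ring
  rw [h2]
  exact h1

theorem sum_mul (t : ℕ) (f : ℕ → ℕ) (R : List ℕ) :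
    (R.map (fun y => t * f y)).sum = t * (R.map f).sum := by
  induction R with
  | nil => simp
  | cons a R ih => simp only [List.map_cons, List.sum_cons, ih]; ring

theorem gcm : GcmStmt := by
  intro n hn R
  induction R with
  | nil =>
    intro _ G
    refine ⟨n, dvd_refl n, hn, by simp, fun _ => 0, ?_⟩
    simp [Nat.ModEq]
  | cons x R ih =>
    intro hnd G
    obtain ⟨hx, hR⟩ := List.nodup_cons.1 hnd
    obtain ⟨g1, h1, h2, h3, m1, h4⟩ := ih hR G
    obtain ⟨s, t, hst⟩ := bez n hn (G x) g1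
    refine ⟨Nat.gcd (G x) g1, (Nat.gcd_dvd_right _ _).trans h1, Nat.gcd_pos_of_pos_right _ h2, ?_,
      fun y => if y = x then s else t * m1 y, ?_⟩
    · intro y hy
      rcases List.mem_cons.1 hy with rfl | hy
      · exact Nat.gcd_dvd_left _ _
      · exact (Nat.gcd_dvd_right _ _).trans (h3 y hy)
    · rw [List.map_cons, List.sum_cons]
      beta_reduce
      rw [if_pos rfl]
      have e : R.map (fun y => (if y = x then s else t * m1 y) * G y) =
          R.map (fun y => t * (m1 y * G y)) := by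
        apply List.map_congr_left
        intro y hy
        have hyx : y ≠ x := fun h => hx (h ▸ hy)
        rw [if_neg hyx]
        ring
      rw [e, sum_mul]
      exact ((h4.mul_left t).add_left (s * G x)).trans hst

end Pool.Agent.MWGR.H81G
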