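import Pool.Agent.MWGR.StmtsD

/-!
# Block MWGR, row NTQ: alternating tails
-/

set_option autoImplicit false

namespace Pool.Agent.MWGR.H81Q

open Pool.Agent.Helper14_MV Pool.Agent.Helper2_MV Pool.Agent.MVO Pool.Agent.MWL Pool.Agent.MWS
  Pool.Agent.MWH

theorem fmc {f g : ℕ → List ℕ} {L : List ℕ} (h : ∀ t ∈ L, f t = g t) :
    L.flatMap f = L.flatMap g := by
  induction L with
  | nil => rfl
  | cons a L ih =>
    rw [List.flatMap_cons, List.flatMap_cons, h a (by simp),
      ih (fun t ht => h t (List.mem_cons_of_mem _ ht))]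

/-- substitution: `0 ↦ u0`, `1 ↦ u1`, `2 ↦ u2`, `3 + t ↦ F t` -/
def sg (u0 u1 u2 : List ℕ) (F : ℕ → List ℕ) (c : ℕ) : List ℕ :=
  if c = 0 then u0 else if c = 1 then u1 else if c = 2 then u2 else F (c - 3)

theorem sg0 (u0 u1 u2 : List ℕ) (F : ℕ → List ℕ) : sg u0 u1 u2 F 0 = u0 := rfl
theorem sg1 (u0 u1 u2 : List ℕ) (F : ℕ → List ℕ) : sg u0 u1 u2 F 1 = u1 := rfl
theorem sg2 (u0 u1 u2 : List ℕ) (F : ℕ → List ℕ) : sg u0 u1 u2 F 2 = u2 := rfl
theorem sg3 (u0 u1 u2 : List ℕ) (F : ℕ → List ℕ) (t : ℕ) : sg u0 u1 u2 F (3 + t) = F t := by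
  unfold sg
  rw [if_neg (by omega), if_neg (by omega), if_neg (by omega)]
  congr 1
  omega

theorem sgp (u0 u1 u2 : List ℕ) (F : ℕ → List ℕ) (t : ℕ) :
    sg u0 u1 u2 F (1 + t % 2) = if t % 2 = 0 then u1 else u2 := by
  by_cases h : t % 2 = 0
  · rw [if_pos h, h, Nat.add_zero, sg1]
  · have h1 : t % 2 = 1 := by omega
    rw [if_neg h, h1]
    exact sg2 ..

theorem flx (u0 u1 u2 : List ℕ) (F : ℕ → List ℕ) (i : ℕ) :
    (X i).flatMap (sg u0 u1 u2 F) = (List.replicate i u0).flatten := by
  induction i with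
  | zero => rfl
  | succ i ih => rw [X, List.replicate_succ, List.flatMap_cons, ih, List.replicate_succ,
      List.flatten_cons, sg0]

theorem fl_nil : ∀ i : ℕ, (List.replicate i ([] : List ℕ)).flatten = []
  | 0 => rfl
  | i + 1 => by rw [List.replicate_succ, List.flatten_cons, fl_nil i]; rfl

theorem fl_one (c : ℕ) : ∀ i : ℕ, (List.replicate i [c]).flatten = List.replicate i c
  | 0 => rfl
  | i + 1 => by
    rw [List.replicate_succ, List.flatten_cons, fl_one c i, List.replicate_succ]
    rfl

theorem flrep (g : ℕ → List ℕ) (c m : ℕ) :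
    (List.replicate m c).flatMap g = (List.replicate m (g c)).flatten := by
  induction m with
  | zero => rfl
  | succ m ih => rw [List.replicate_succ, List.flatMap_cons, ih, List.replicate_succ,
      List.flatten_cons]

theorem flalt (u0 u1 u2 : List ℕ) (F : ℕ → List ℕ) (r : ℕ → ℕ) (k : ℕ) :
    (altm k r).flatMap (sg u0 u1 u2 F) = (List.range k).flatMap (fun t =>
      F t ++ (List.replicate (r t) (if t % 2 = 0 then u1 else u2)).flatten) := by
  unfold altm
  rw [List.flatMap_assoc]
  apply fmc
  intro t _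
  rw [List.flatMap_cons, sg3, flrep, sgp]

/-- an insertion in front of the first letter of the tail -/
theorem pull (V : List ℕ) (H : ℕ → List ℕ) (k : ℕ) (hk : 1 ≤ k) :
    (List.range k).flatMap (fun t => (if t = 0 then V else []) ++ H t) =
      V ++ (List.range k).flatMap H := by
  obtain ⟨k, rfl⟩ : ∃ k', k = k' + 1 := ⟨k - 1, by omega⟩
  rw [List.range_succ_eq_map, List.flatMap_cons, List.flatMap_cons, if_pos rfl]
  have : (List.map Nat.succ (List.range k)).flatMap (fun t => (if t = 0 then V else []) ++ H t) =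
      (List.map Nat.succ (List.range k)).flatMap H := by
    apply fmc
    intro t ht
    obtain ⟨s, -, rfl⟩ := List.mem_map.1 ht
    rw [if_neg (Nat.succ_ne_zero s)]
    rfl
  rw [this]
  simp

theorem exg_alt (hEXG : ExgStmt) {n : ℕ} {θ : FIC} (hB : BG n (RR θ)) (r r' : ℕ → ℕ) :
    ∀ (L p : List ℕ), 1 ∈ p → 2 ∈ p → (∀ t ∈ L, 1 ≤ r t ∧ 1 ≤ r' t ∧ r t ≡ r' t [MOD n]) →
      RR θ (p ++ L.flatMap (fun j => (3 + j) :: List.replicate (r j) (1 + j % 2)))
        (p ++ L.flatMap (fun j => (3 + j) :: List.replicate (r' j) (1 + j % 2))) := by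
  intro L
  induction L with
  | nil => intro p _ _ _; exact RR.refl _
  | cons t L ih =>
    intro p h1 h2 hL
    obtain ⟨a1, a2, a3⟩ := hL t (by simp)
    have hy : 1 + t % 2 ∈ p ++ [3 + t] := by
      apply List.mem_append_left
      rcases Nat.mod_two_eq_zero_or_one t with h | h
      · rw [h]; exact h1
      · rw [h]; exact h2
    have s1 := (hEXG n θ hB (p ++ [3 + t])
      (L.flatMap (fun j => (3 + j) :: List.replicate (r j) (1 + j % 2))) (1 + t % 2) (r t) (r' t)
        a3).1 hy a1 a2
    have s2 := ih (p ++ (3 + t) :: List.replicate (r' t) (1 + t % 2))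
      (List.mem_append_left _ h1) (List.mem_append_left _ h2)
      (fun s hs => hL s (List.mem_cons_of_mem _ hs))
    have e1 : p ++ (t :: L).flatMap (fun j => (3 + j) :: List.replicate (r j) (1 + j % 2)) =
        (p ++ [3 + t]) ++ (List.replicate (r t) (1 + t % 2) ++
          L.flatMap (fun j => (3 + j) :: List.replicate (r j) (1 + j % 2))) := by
      simp
    have e2 : (p ++ [3 + t]) ++ (List.replicate (r' t) (1 + t % 2) ++
          L.flatMap (fun j => (3 + j) :: List.replicate (r j) (1 + j % 2))) =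
        (p ++ (3 + t) :: List.replicate (r' t) (1 + t % 2)) ++
          L.flatMap (fun j => (3 + j) :: List.replicate (r j) (1 + j % 2)) := by
      simp
    have e3 : p ++ (t :: L).flatMap (fun j => (3 + j) :: List.replicate (r' j) (1 + j % 2)) =
        (p ++ (3 + t) :: List.replicate (r' t) (1 + t % 2)) ++
          L.flatMap (fun j => (3 + j) :: List.replicate (r' j) (1 + j % 2)) := by
      simp
    rw [e1, e3]
    rw [e2] at s1
    exact θ.trans s1 s2

theorem alt_one (k : ℕ) : altm k (fun _ => 1) = alt k := by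
  unfold altm alt
  apply fmc
  intro t _
  rfl

theorem ntq (hEXG : ExgStmt) (hNTC : NtcStmt) : NtqStmt := by
  intro n θ hB k r r' i j l i' j' l' hk hr h
  have hn := hB.pos
  -- step 1: the left tail becomes `alt k`
  obtain ⟨m, hm⟩ : ∃ m : ℕ → ℕ, ∀ t, m t = (n - 1) * r t + 1 := ⟨_, fun _ => rfl⟩
  have h1 := h.sub (sg [0] [1] [2] (fun t => (3 + t) :: List.replicate (m t) (1 + t % 2)))
  have tl1 : ∀ s : ℕ → ℕ, (altm k s).flatMap
      (sg [0] [1] [2] (fun t => (3 + t) :: List.replicate (m t) (1 + t % 2))) =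
      altm k (fun t => m t + s t) := by
    intro s
    rw [flalt]
    unfold altm
    apply fmc
    intro t _
    have e : (if t % 2 = 0 then [1] else [2] : List ℕ) = [1 + t % 2] := by
      rcases Nat.mod_two_eq_zero_or_one t with h | h
      · rw [h]; rfl
      · rw [h]; rfl
    rw [e, fl_one, List.cons_append, ← List.replicate_add]
  simp only [List.flatMap_append, List.flatMap_cons, flx, sg1, sg2, fl_one, tl1] at h1
  obtain ⟨q, hq⟩ : ∃ q : ℕ → ℕ, ∀ t, q t = m t + r' t := ⟨_, fun _ => rfl⟩
  have h2 : RR θ (X i ++ 1 :: (X j ++ 2 :: (X l ++ alt k)))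
      (X i' ++ 2 :: (X j' ++ 1 :: (X l' ++ altm k q))) := by
    have e1 : altm k (fun t => m t + r' t) = altm k q := by
      unfold altm
      apply fmc
      intro t _
      rw [hq]
    rw [e1] at h1
    refine θ.trans ?_ h1
    change RR θ _ _
    rw [← alt_one]
    have e2 : ∀ s : ℕ → ℕ, X i ++ 1 :: (X j ++ 2 :: (X l ++ altm k s)) =
        (X i ++ 1 :: (X j ++ 2 :: X l)) ++ (List.range k).flatMap
          (fun j => (3 + j) :: List.replicate (s j) (1 + j % 2)) := by
      intro s
      simp [altm]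
    have e3 : ∀ s : ℕ → ℕ, X i ++ ([1] ++ (X j ++ ([2] ++ (X l ++ altm k s)))) =
        (X i ++ 1 :: (X j ++ 2 :: X l)) ++ (List.range k).flatMap
          (fun j => (3 + j) :: List.replicate (s j) (1 + j % 2)) := by
      intro s
      simp [altm]
    rw [e2, e3]
    refine exg_alt hEXG hB _ _ _ _ (by simp) (by simp) ?_
    intro t ht
    refine ⟨le_rfl, ?_, ?_⟩
    · rw [hm]; omega
    · rw [hm]
      obtain ⟨n', rfl⟩ : ∃ n', n = n' + 1 := ⟨n - 1, by omega⟩
      have e4 : (n' + 1 - 1) * r t + 1 + r t = 1 + (n' + 1) * r t := by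
        rw [Nat.add_sub_cancel]
        ring
      rw [e4]
      unfold Nat.ModEq
      rw [Nat.add_mul_mod_self_left]
  -- step 2: even positions of the right tail
  have h3 := h2.sub (sg [] [1] [] (fun t => (if t = 0 then X l' else []) ++
    ((3 + t) :: (if t % 2 = 0 then [] else List.replicate (q t) 2))))
  have tl2 : ∀ s : ℕ → ℕ, (altm k s).flatMap (sg [] [1] [] (fun t => (if t = 0 then X l' else []) ++
      ((3 + t) :: (if t % 2 = 0 then [] else List.replicate (q t) 2)))) =
      X l' ++ altm k (fun t => if t % 2 = 0 then s t else q t) := by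
    intro s
    rw [flalt]
    have e : (List.range k).flatMap (fun t => ((if t = 0 then X l' else []) ++
        ((3 + t) :: (if t % 2 = 0 then [] else List.replicate (q t) 2))) ++
        (List.replicate (s t) (if t % 2 = 0 then [1] else [])).flatten) =
        (List.range k).flatMap (fun t => (if t = 0 then X l' else []) ++
          ((3 + t) :: List.replicate (if t % 2 = 0 then s t else q t) (1 + t % 2))) := by
      apply fmc
      intro t _
      rcases Nat.mod_two_eq_zero_or_one t with h | h
      · rw [h]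
        simp
      · rw [h]
        simp
    rw [e, pull _ _ _ (by omega)]
    rfl
  rw [← alt_one] at h3
  simp only [List.flatMap_append, List.flatMap_cons, flx, sg1, sg2, fl_nil, tl2] at h3
  have h4 : RR θ (X i' ++ 2 :: (X j' ++ 1 :: (X l' ++ altm k (fun t => if t % 2 = 0 then 1 else q t))))
      (X i' ++ 2 :: (X j' ++ 1 :: (X l' ++ altm k q))) := by
    have e1 : altm k (fun t => if t % 2 = 0 then q t else q t) = altm k q := by
      unfold altm
      apply fmc
      intro t _
      simp only [ite_self]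
    rw [e1] at h3
    have h5 := (RR.refl (β := θ) (X i' ++ 2 :: X j')).append h3
    simpa using h5
  -- step 3: odd positions
  have h5 := h2.sub (sg [] [] [2] (fun t => (if t = 0 then X j' ++ 1 :: X l' else []) ++
    ((3 + t) :: (if t % 2 = 0 then [1] else []))))
  have tl3 : ∀ s : ℕ → ℕ, (altm k s).flatMap (sg [] [] [2] (fun t =>
      (if t = 0 then X j' ++ 1 :: X l' else []) ++ ((3 + t) :: (if t % 2 = 0 then [1] else [])))) =
      (X j' ++ 1 :: X l') ++ altm k (fun t => if t % 2 = 0 then 1 else s t) := by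
    intro s
    rw [flalt]
    have e : (List.range k).flatMap (fun t => ((if t = 0 then X j' ++ 1 :: X l' else []) ++
        ((3 + t) :: (if t % 2 = 0 then [1] else []))) ++
        (List.replicate (s t) (if t % 2 = 0 then [] else [2])).flatten) =
        (List.range k).flatMap (fun t => (if t = 0 then X j' ++ 1 :: X l' else []) ++
          ((3 + t) :: List.replicate (if t % 2 = 0 then 1 else s t) (1 + t % 2))) := by
      apply fmc
      intro t _
      rcases Nat.mod_two_eq_zero_or_one t with h | h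
      · rw [h]
        simp
      · rw [h]
        simp
    rw [e, pull _ _ _ (by omega)]
    rfl
  rw [← alt_one] at h5
  simp only [List.flatMap_append, List.flatMap_cons, flx, sg1, sg2, fl_nil, tl3] at h5
  have h6 : RR θ (X i' ++ 2 :: (X j' ++ 1 :: (X l' ++ alt k)))
      (X i' ++ 2 :: (X j' ++ 1 :: (X l' ++ altm k (fun t => if t % 2 = 0 then 1 else q t)))) := by
    have e1 : altm k (fun t => if t % 2 = 0 then 1 else 1) = alt k := by
      rw [← alt_one]
      unfold altm
      apply fmc
      intro t _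
      simp only [ite_self]
    rw [e1] at h5
    have h7 := (RR.refl (β := θ) (X i')).append h5
    simpa using h7
  have h7 : RR θ (X i ++ 1 :: (X j ++ 2 :: (X l ++ alt k)))
      (X i' ++ 2 :: (X j' ++ 1 :: (X l' ++ alt k))) :=
    θ.trans h2 (θ.trans h4.symm h6.symm)
  -- the first letter of the tail
  obtain ⟨T0, hT0, t1, t2, t3, t4⟩ : ∃ T0, alt k = 3 :: T0 ∧ 1 ∈ T0 ∧ 2 ∈ T0 ∧ 0 ∉ T0 ∧ 3 ∉ T0 := by
    obtain ⟨k', rfl⟩ : ∃ k', k = k' + 2 := ⟨k - 2, by omega⟩
    refine ⟨1 :: 4 :: 2 :: ((List.range k').map (fun s => s + 2)).flatMap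
      (fun j => [3 + j, 1 + j % 2]), ?_, by simp, by simp, ?_, ?_⟩
    · have e : List.range (k' + 2) = 0 :: 1 :: (List.range k').map (fun s => s + 2) := by
        rw [List.range_succ_eq_map, List.range_succ_eq_map]
        simp [Function.comp_def]
      unfold alt
      rw [e]
      rfl
    · intro h0
      simp only [List.mem_cons, List.mem_flatMap, List.mem_map, List.not_mem_nil, or_false] at h0
      rcases h0 with h0 | h0 | h0 | ⟨a, ⟨b, -, rfl⟩, h0 | h0⟩ <;> omega
    · intro h0
      simp only [List.mem_cons, List.mem_flatMap, List.mem_map, List.not_mem_nil, or_false] at h0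
      rcases h0 with h0 | h0 | h0 | ⟨a, ⟨b, -, rfl⟩, h0 | h0⟩ <;> omega
  rw [hT0] at h7 ⊢
  exact hNTC n θ hB T0 i j l i' j' l' t1 t2 t3 t4 h7

end Pool.Agent.MWGR.H81Q
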